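import Pool.Agent.Helper60.L1Full.Stmts
import Pool.Agent.Helper2.DualL1.Comb

/-! C0 : the dual of a `c₀`-sum is the `ℓ¹`-sum of the duals. -/

namespace DualL1

open Filter Topology
open scoped ENNReal Classical

universe u v w

section C0

variable {𝕜 : Type v} [RCLike 𝕜] {J : Type u} {E : J → Type w}
  [∀ j, NormedAddCommGroup (E j)] [∀ j, NormedSpace 𝕜 (E j)]

variable (𝕜 E) in
/-- finitely supported families -/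
noncomputable def C0_span : Submodule 𝕜 (lp E ∞) :=
  Submodule.span 𝕜 {z | ∃ (j : J) (v : E j), z = lp.single ∞ j v}

variable (𝕜 E) in
/-- the `c₀`-sum -/
noncomputable def C0_Y : Submodule 𝕜 (lp E ∞) := (C0_span 𝕜 E).topologicalClosure

lemma C0_single_mem (j : J) (v : E j) : lp.single ∞ j v ∈ C0_Y 𝕜 E :=
  Submodule.le_topologicalClosure _ (Submodule.subset_span ⟨j, v, rfl⟩)

variable (𝕜) in
/-- embedding of the summands -/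
noncomputable def C0_s (j : J) : E j →L[𝕜] C0_Y 𝕜 E :=
  (lp.singleContinuousLinearMap 𝕜 E ∞ j).codRestrict (C0_Y 𝕜 E) (fun v => C0_single_mem j v)

variable (𝕜) in
/-- evaluation -/
noncomputable def C0_ev (j : J) : C0_Y 𝕜 E →L[𝕜] E j :=
  (lp.evalCLM 𝕜 E ∞ j).comp (C0_Y 𝕜 E).subtypeL

lemma C0_ev_apply (j : J) (y : C0_Y 𝕜 E) : C0_ev 𝕜 j y = y.1 j := rfl

lemma C0_norm_ev_le (j : J) (y : C0_Y 𝕜 E) : ‖C0_ev 𝕜 j y‖ ≤ ‖y‖ :=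
  lp.norm_apply_le_norm (by simp) y.1 j

lemma C0_s_coe (j : J) (v : E j) : ((C0_s 𝕜 j v : C0_Y 𝕜 E) : lp E ∞) = lp.single ∞ j v := rfl

lemma C0_ev_s (j k : J) (v : E k) : C0_ev 𝕜 j (C0_s 𝕜 k v) = Pi.single k v j := rfl

lemma C0_ev_s_self (j : J) (v : E j) : C0_ev 𝕜 j (C0_s 𝕜 j v) = v := by
  rw [C0_ev_s, Pi.single_eq_same]

lemma C0_ev_sum (j : J) (S : Finset J) (v : ∀ j, E j) :
    C0_ev 𝕜 j (∑ k ∈ S, C0_s 𝕜 k (v k)) = if j ∈ S then v j else 0 := by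
  rw [map_sum]
  simp only [C0_ev_s]
  exact Finset.sum_pi_single j v S

lemma C0_norm_sum_le (S : Finset J) (v : ∀ j, E j) {C : ℝ} (hC : 0 ≤ C)
    (h : ∀ j ∈ S, ‖v j‖ ≤ C) : ‖∑ k ∈ S, C0_s 𝕜 k (v k)‖ ≤ C := by
  have h1 : ‖∑ k ∈ S, C0_s 𝕜 k (v k)‖ = ‖((∑ k ∈ S, C0_s 𝕜 k (v k) : C0_Y 𝕜 E) : lp E ∞)‖ := rfl
  rw [h1]
  refine lp.norm_le_of_forall_le hC (fun j => ?_)
  have h2 : ((∑ k ∈ S, C0_s 𝕜 k (v k) : C0_Y 𝕜 E) : lp E ∞) j =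
      C0_ev 𝕜 j (∑ k ∈ S, C0_s 𝕜 k (v k)) := rfl
  rw [h2, C0_ev_sum]
  split_ifs with hj
  · exact h j hj
  · rw [norm_zero]; exact hC

lemma C0_ext {D : C0_Y 𝕜 E →L[𝕜] 𝕜} (h : ∀ (j : J) (v : E j), D (C0_s 𝕜 j v) = 0) : D = 0 := by
  have hspan : ∀ (z : lp E ∞) (hz : z ∈ C0_span 𝕜 E),
      D ⟨z, Submodule.le_topologicalClosure _ hz⟩ = 0 := by
    intro z hz
    induction hz using Submodule.span_induction with
    | mem x hx =>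
      obtain ⟨j, v, rfl⟩ := hx
      exact h j v
    | zero => exact map_zero D
    | add x y hx hy h1 h2 =>
      have h3 : (⟨x + y, Submodule.le_topologicalClosure _ (Submodule.add_mem _ hx hy)⟩ :
          C0_Y 𝕜 E) = ⟨x, Submodule.le_topologicalClosure _ hx⟩ +
          ⟨y, Submodule.le_topologicalClosure _ hy⟩ := rfl
      rw [h3, map_add, h1, h2, add_zero]
    | smul a x hx h1 =>
      have h3 : (⟨a • x, Submodule.le_topologicalClosure _ (Submodule.smul_mem _ a hx)⟩ :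
          C0_Y 𝕜 E) = a • ⟨x, Submodule.le_topologicalClosure _ hx⟩ := rfl
      rw [h3, map_smul, h1, smul_zero]
  ext y
  rw [_root_.zero_apply, ← norm_eq_zero]
  refine le_antisymm ?_ (norm_nonneg _)
  refine le_of_forall_pos_le_add (fun ε hε => ?_)
  rw [zero_add]
  have hy : y.1 ∈ closure (C0_span 𝕜 E : Set (lp E ∞)) := y.2
  obtain ⟨z, hz, hd⟩ := Metric.mem_closure_iff.1 hy (ε / (‖D‖ + 1)) (by positivity)
  have hz0 := hspan z hz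
  have h1 : D y = D (y - ⟨z, Submodule.le_topologicalClosure _ hz⟩) := by
    rw [map_sub, hz0, sub_zero]
  have h2 : ‖y - ⟨z, Submodule.le_topologicalClosure _ hz⟩‖ ≤ ε / (‖D‖ + 1) := by
    rw [dist_eq_norm] at hd
    exact hd.le
  rw [h1]
  calc ‖D (y - ⟨z, Submodule.le_topologicalClosure _ hz⟩)‖
      ≤ ‖D‖ * ‖y - ⟨z, Submodule.le_topologicalClosure _ hz⟩‖ := D.le_opNorm _
    _ ≤ (‖D‖ + 1) * (ε / (‖D‖ + 1)) := by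
      refine mul_le_mul (by linarith) h2 (norm_nonneg _) (by positivity)
    _ = ε := by field_simp

variable (𝕜) in
/-- the linear map `φ ↦ φ ∘ ev` -/
noncomputable def C0_i₀ (j : J) : (E j →L[𝕜] 𝕜) →ₗ[𝕜] (C0_Y 𝕜 E →L[𝕜] 𝕜) where
  toFun φ := φ.comp (C0_ev 𝕜 j)
  map_add' _ _ := rfl
  map_smul' _ _ := rfl

lemma C0_i₀_apply (j : J) (φ : E j →L[𝕜] 𝕜) (y : C0_Y 𝕜 E) : C0_i₀ 𝕜 j φ y = φ (y.1 j) := rfl

lemma C0_norm_i₀_le (j : J) (φ : E j →L[𝕜] 𝕜) : ‖C0_i₀ 𝕜 j φ‖ ≤ ‖φ‖ := by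
  refine ContinuousLinearMap.opNorm_le_bound _ (norm_nonneg φ) (fun p => ?_)
  rw [C0_i₀_apply]
  calc ‖φ (p.1 j)‖ ≤ ‖φ‖ * ‖p.1 j‖ := φ.le_opNorm _
    _ ≤ ‖φ‖ * ‖p‖ := mul_le_mul_of_nonneg_left (C0_norm_ev_le j p) (norm_nonneg φ)

lemma C0_exists_near (j : J) (φ : E j →L[𝕜] 𝕜) {ε : ℝ} (hε : 0 < ε) :
    ∃ v : E j, ‖v‖ ≤ 1 ∧ ‖φ‖ - ε ≤ RCLike.re (φ v) := by
  by_contra hcon
  push Not at hcon
  by_cases h0 : ‖φ‖ - ε ≤ 0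
  · have h1 := hcon 0 (by simp)
    rw [map_zero, map_zero] at h1
    linarith
  · have h1 : ‖φ‖ ≤ ‖φ‖ - ε := norm_le_of_re_le φ (by linarith) (fun y hy => (hcon y hy).le)
    linarith

lemma C0_norm_sum (S : Finset J) (φ : ∀ j, (E j →L[𝕜] 𝕜)) :
    ‖∑ j ∈ S, C0_i₀ 𝕜 j (φ j)‖ = ∑ j ∈ S, ‖φ j‖ := by
  refine le_antisymm ?_ ?_
  · exact (norm_sum_le S (fun j => C0_i₀ 𝕜 j (φ j))).trans
      (Finset.sum_le_sum (fun j _ => C0_norm_i₀_le j (φ j)))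
  · refine le_of_forall_pos_le_add (fun ε hε => ?_)
    have hε' : 0 < ε / ((S.card : ℝ) + 1) := by positivity
    choose v hv hv' using fun j => C0_exists_near j (φ j) hε'
    set p : C0_Y 𝕜 E := ∑ k ∈ S, C0_s 𝕜 k (v k) with hp
    have hp1 : ‖p‖ ≤ 1 := C0_norm_sum_le S v zero_le_one (fun j _ => hv j)
    set Φ := ∑ j ∈ S, C0_i₀ 𝕜 j (φ j) with hΦ
    have h1 : Φ p = ∑ j ∈ S, φ j (v j) := by
      rw [hΦ, _root_.sum_apply]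
      refine Finset.sum_congr rfl (fun j hj => ?_)
      show φ j (C0_ev 𝕜 j p) = φ j (v j)
      rw [hp, C0_ev_sum, if_pos hj]
    have h2 : ∑ j ∈ S, ‖φ j‖ - ε ≤ RCLike.re (Φ p) := by
      rw [h1, map_sum]
      have h3 : ∑ j ∈ S, (‖φ j‖ - ε / ((S.card : ℝ) + 1)) ≤ ∑ j ∈ S, RCLike.re (φ j (v j)) :=
        Finset.sum_le_sum (fun j _ => hv' j)
      rw [Finset.sum_sub_distrib, Finset.sum_const, nsmul_eq_mul] at h3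
      have h4 : (S.card : ℝ) * (ε / ((S.card : ℝ) + 1)) ≤ ε := by
        rw [← mul_div_assoc, div_le_iff₀ (by positivity)]
        nlinarith
      linarith
    have h3 : RCLike.re (Φ p) ≤ ‖Φ‖ := by
      calc RCLike.re (Φ p) ≤ ‖Φ p‖ := RCLike.re_le_norm _
        _ ≤ ‖Φ‖ * ‖p‖ := Φ.le_opNorm _
        _ ≤ ‖Φ‖ * 1 := mul_le_mul_of_nonneg_left hp1 (norm_nonneg Φ)
        _ = ‖Φ‖ := mul_one _
    linarith

lemma C0_norm_i₀ (j : J) (φ : E j →L[𝕜] 𝕜) : ‖C0_i₀ 𝕜 j φ‖ = ‖φ‖ := by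
  refine le_antisymm (C0_norm_i₀_le j φ) ?_
  refine ContinuousLinearMap.opNorm_le_bound _ (norm_nonneg (C0_i₀ 𝕜 j φ)) (fun v => ?_)
  have h1 : φ v = C0_i₀ 𝕜 j φ (C0_s 𝕜 j v) := by
    show φ v = φ (C0_ev 𝕜 j (C0_s 𝕜 j v))
    rw [C0_ev_s_self]
  rw [h1]
  refine (ContinuousLinearMap.le_opNorm _ _).trans ?_
  refine mul_le_mul_of_nonneg_left ?_ (norm_nonneg (C0_i₀ 𝕜 j φ))
  show ‖lp.single ∞ j v‖ ≤ ‖v‖
  exact (lp.norm_single (by simp) j v).le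

lemma C0_summable (Φ : C0_Y 𝕜 E →L[𝕜] 𝕜) :
    Summable (fun j => C0_i₀ 𝕜 j (Φ.comp (C0_s 𝕜 j))) := by
  have hle : ∀ S : Finset J, ∑ j ∈ S, ‖Φ.comp (C0_s 𝕜 j)‖ ≤ ‖Φ‖ := by
    intro S
    rw [← C0_norm_sum S (fun j => Φ.comp (C0_s 𝕜 j))]
    refine ContinuousLinearMap.opNorm_le_bound _ (norm_nonneg Φ) (fun y => ?_)
    have h1 : (∑ j ∈ S, C0_i₀ 𝕜 j (Φ.comp (C0_s 𝕜 j))) y =
        Φ (∑ j ∈ S, C0_s 𝕜 j (y.1 j)) := by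
      rw [_root_.sum_apply, map_sum]
      rfl
    rw [h1]
    refine (Φ.le_opNorm _).trans (mul_le_mul_of_nonneg_left ?_ (norm_nonneg Φ))
    exact C0_norm_sum_le S (fun j => y.1 j) (norm_nonneg _) (fun j _ => C0_norm_ev_le j y)
  have hs : Summable (fun j => ‖Φ.comp (C0_s 𝕜 j)‖) :=
    summable_of_sum_le (c := ‖Φ‖) (fun j => norm_nonneg _) hle
  exact Summable.of_norm_bounded (f := fun j => C0_i₀ 𝕜 j (Φ.comp (C0_s 𝕜 j))) hs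
    (fun j => C0_norm_i₀_le j (Φ.comp (C0_s 𝕜 j)))

lemma C0_tsum (Φ : C0_Y 𝕜 E →L[𝕜] 𝕜) : ∑' j, C0_i₀ 𝕜 j (Φ.comp (C0_s 𝕜 j)) = Φ := by
  rw [← sub_eq_zero]
  refine C0_ext (fun k v => ?_)
  rw [_root_.sub_apply, sub_eq_zero]
  have h0 : HasSum (fun j => C0_i₀ 𝕜 j (Φ.comp (C0_s 𝕜 j)) (C0_s 𝕜 k v))
      ((∑' j, C0_i₀ 𝕜 j (Φ.comp (C0_s 𝕜 j))) (C0_s 𝕜 k v)) :=
    (C0_summable Φ).hasSum.mapL (ContinuousLinearMap.apply 𝕜 𝕜 (C0_s 𝕜 k v))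
  have h1 : HasSum (fun j => C0_i₀ 𝕜 j (Φ.comp (C0_s 𝕜 j)) (C0_s 𝕜 k v)) (Φ (C0_s 𝕜 k v)) := by
    have h5 : C0_i₀ 𝕜 k (Φ.comp (C0_s 𝕜 k)) (C0_s 𝕜 k v) = Φ (C0_s 𝕜 k v) := by
      show Φ (C0_s 𝕜 k (C0_ev 𝕜 k (C0_s 𝕜 k v))) = _
      rw [C0_ev_s_self]
    rw [← h5]
    refine hasSum_single k (fun j hj => ?_)
    show Φ (C0_s 𝕜 j (C0_ev 𝕜 j (C0_s 𝕜 k v))) = 0
    rw [C0_ev_s, Pi.single_eq_of_ne hj, map_zero, map_zero]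
  exact h0.unique h1

end C0

theorem st_C0 : ST_C0.{u, v, w} := by
  intro 𝕜 _ J E _ _ _
  have hcl : IsClosed (C0_Y 𝕜 E : Set (lp E ∞)) := Submodule.isClosed_topologicalClosure _
  refine ⟨C0_Y 𝕜 E, inferInstance, inferInstance, hcl.completeSpace_coe, ?_⟩
  refine ⟨fun j => ⟨C0_i₀ 𝕜 j, C0_norm_i₀ j⟩, fun S x => C0_norm_sum S x, ?_⟩
  intro M hM h
  rw [eq_top_iff]
  intro Φ _
  rw [← C0_tsum Φ]
  exact hM.mem_of_tendsto (C0_summable Φ).hasSum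
    (Eventually.of_forall (fun S => M.sum_mem (fun j _ => h j _)))

end DualL1
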