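import Pool.Agent.Helper60.L1Full.Stmts
import Mathlib

/-! CKA : functionals on `C(K, 𝕜)`, `K ⊆ {0,1}^I` closed, are given by densities with respect to
measures on the product `σ`-algebra. -/

namespace DualL1

open Filter Topology MeasureTheory
open scoped ENNReal Classical

universe u v

section CKA

variable {𝕜 : Type v} [RCLike 𝕜] {I : Type u}

/-- Bounded families of functionals have pointwise limits along an ultrafilter. -/
theorem CKA_ultralimit {ι Y : Type*} [NormedAddCommGroup Y] [NormedSpace 𝕜 Y] (U : Ultrafilter ι)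
    (g : ι → (Y →L[𝕜] 𝕜)) {C : ℝ} (hg : ∀ N, ‖g N‖ ≤ C) :
    ∃ G : Y →L[𝕜] 𝕜, ∀ y, Tendsto (fun N => g N y) U (𝓝 (G y)) := by
  have hcomp := WeakDual.isCompact_closedBall (0 : StrongDual 𝕜 Y) C
  have hmem : ∀ N, (StrongDual.toWeakDual (g N)) ∈
      (WeakDual.toStrongDual ⁻¹' Metric.closedBall (0 : StrongDual 𝕜 Y) C) := by
    intro N
    rw [Set.mem_preimage]
    simpa using hg N
  obtain ⟨G, hG, hlim⟩ := hcomp.ultrafilter_le_nhds (U.map (fun N => StrongDual.toWeakDual (g N)))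
    (by
      rw [Filter.le_principal_iff, Ultrafilter.coe_map, Filter.mem_map]
      exact Filter.Eventually.of_forall hmem)
  refine ⟨WeakDual.toStrongDual G, fun y => ?_⟩
  have h1 : Tendsto (fun N => StrongDual.toWeakDual (g N)) U (𝓝 G) := hlim
  have h2 := (WeakDual.eval_continuous y).tendsto G
  exact h2.comp h1

/-- extension by `false` -/
noncomputable def CKA_ext {F : Finset I} (w : F → Bool) : I → Bool :=
  fun i => if h : i ∈ F then w ⟨i, h⟩ else false

lemma CKA_restr_ext {F : Finset I} (w : F → Bool) : (fun i : F => CKA_ext w i) = w := by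
  funext i
  simp [CKA_ext]

/-- projection to the coordinates in `F`, extended by `false`. -/
noncomputable def CKA_proj (F : Finset I) (x : I → Bool) : I → Bool := CKA_ext (fun i : F => x i)

lemma CKA_continuous_restr (F : Finset I) : Continuous (fun (x : I → Bool) (i : F) => x i) :=
  continuous_pi (fun i => continuous_apply (i : I))

variable (𝕜) in
/-- indicator of a cylinder. -/
noncomputable def CKA_cyl {F : Finset I} (w : F → Bool) : C(I → Bool, 𝕜) where
  toFun x := if (fun i : F => x i) = w then 1 else 0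
  continuous_toFun := by
    have h : Continuous (fun v : F → Bool => (if v = w then 1 else 0 : 𝕜)) :=
      continuous_of_discreteTopology
    exact h.comp (CKA_continuous_restr F)

lemma CKA_cyl_apply {F : Finset I} (w : F → Bool) (x : I → Bool) :
    CKA_cyl 𝕜 w x = if (fun i : F => x i) = w then 1 else 0 := rfl

lemma CKA_sum_cyl_apply {F : Finset I} (a : (F → Bool) → 𝕜) (x : I → Bool) :
    (∑ w, a w • CKA_cyl 𝕜 w) x = a (fun i => x i) := by
  have h1 : (∑ w, a w • CKA_cyl 𝕜 w) x = ∑ w, a w * CKA_cyl 𝕜 w x := by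
    rw [ContinuousMap.sum_apply]
    rfl
  rw [h1]
  simp [CKA_cyl_apply]

lemma CKA_sum_norm_cyl_le (Φ : C(I → Bool, 𝕜) →L[𝕜] 𝕜) (F : Finset I) :
    ∑ w : F → Bool, ‖Φ (CKA_cyl 𝕜 w)‖ ≤ ‖Φ‖ := by
  choose a ha ha' using fun w : F → Bool => RCLike.exists_norm_eq_mul_self (Φ (CKA_cyl 𝕜 w))
  have h1 : ‖∑ w, a w • CKA_cyl 𝕜 w‖ ≤ 1 := by
    rw [ContinuousMap.norm_le _ zero_le_one]
    intro x
    rw [CKA_sum_cyl_apply]
    exact (ha _).le
  have h2 : Φ (∑ w, a w • CKA_cyl 𝕜 w) = ((∑ w : F → Bool, ‖Φ (CKA_cyl 𝕜 w)‖ : ℝ) : 𝕜) := by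
    rw [map_sum]
    push_cast
    refine Finset.sum_congr rfl (fun w _ => ?_)
    rw [map_smul, smul_eq_mul, ← ha']
  calc ∑ w : F → Bool, ‖Φ (CKA_cyl 𝕜 w)‖ = ‖Φ (∑ w, a w • CKA_cyl 𝕜 w)‖ := by
        rw [h2, RCLike.norm_ofReal, abs_of_nonneg (Finset.sum_nonneg (fun _ _ => norm_nonneg _))]
    _ ≤ ‖Φ‖ * ‖∑ w, a w • CKA_cyl 𝕜 w‖ := Φ.le_opNorm _
    _ ≤ ‖Φ‖ * 1 := mul_le_mul_of_nonneg_left h1 (norm_nonneg _)
    _ = ‖Φ‖ := mul_one _

/-- the approximating positive functionals. -/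
noncomputable def CKA_lam (Φ : C(I → Bool, 𝕜) →L[𝕜] 𝕜) (F : Finset I) :
    C(I → Bool, ℝ) →L[ℝ] ℝ :=
  ∑ w : F → Bool, ‖Φ (CKA_cyl 𝕜 w)‖ • ContinuousMap.evalCLM ℝ (CKA_ext w : I → Bool)

lemma CKA_lam_apply (Φ : C(I → Bool, 𝕜) →L[𝕜] 𝕜) (F : Finset I) (f : C(I → Bool, ℝ)) :
    CKA_lam Φ F f = ∑ w : F → Bool, ‖Φ (CKA_cyl 𝕜 w)‖ * f (CKA_ext w) := by
  rw [CKA_lam, _root_.sum_apply]
  rfl

lemma CKA_norm_lam_le (Φ : C(I → Bool, 𝕜) →L[𝕜] 𝕜) (F : Finset I) : ‖CKA_lam Φ F‖ ≤ ‖Φ‖ := by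
  refine ContinuousLinearMap.opNorm_le_bound _ (norm_nonneg _) (fun f => ?_)
  rw [CKA_lam_apply]
  calc ‖∑ w : F → Bool, ‖Φ (CKA_cyl 𝕜 w)‖ * f (CKA_ext w)‖
      ≤ ∑ w : F → Bool, ‖‖Φ (CKA_cyl 𝕜 w)‖ * f (CKA_ext w)‖ := norm_sum_le _ _
    _ ≤ ∑ w : F → Bool, ‖Φ (CKA_cyl 𝕜 w)‖ * ‖f‖ := by
        refine Finset.sum_le_sum (fun w _ => ?_)
        rw [norm_mul, norm_norm]
        exact mul_le_mul_of_nonneg_left (f.norm_coe_le_norm _) (norm_nonneg _)
    _ = (∑ w : F → Bool, ‖Φ (CKA_cyl 𝕜 w)‖) * ‖f‖ := by rw [Finset.sum_mul]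
    _ ≤ ‖Φ‖ * ‖f‖ := mul_le_mul_of_nonneg_right (CKA_sum_norm_cyl_le Φ F) (norm_nonneg _)

lemma CKA_tendstoUniformly_proj :
    TendstoUniformly (fun F : Finset I => CKA_proj F) id atTop := by
  rw [tendstoUniformly_iff_tendsto, Pi.uniformity, tendsto_iInf]
  intro i
  rw [tendsto_comap_iff]
  intro V hV
  rw [mem_map]
  have h : {q : Finset I × (I → Bool) | i ∈ q.1} ∈
      (atTop : Filter (Finset I)) ×ˢ (⊤ : Filter (I → Bool)) := by
    have h0 : ∀ᶠ F : Finset I in atTop, i ∈ F := by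
      filter_upwards [eventually_ge_atTop {i}] with F hF
      exact hF (Finset.mem_singleton_self i)
    exact (tendsto_fst.eventually h0)
  filter_upwards [h] with q hq
  have h1 : CKA_proj q.1 q.2 i = q.2 i := by
    have : i ∈ q.1 := hq
    simp [CKA_proj, CKA_ext, this]
  show (q.2 i, CKA_proj q.1 q.2 i) ∈ V
  rw [h1]
  exact refl_mem_uniformity hV

/-- composition with the projection. -/
noncomputable def CKA_approxF (f : C(I → Bool, 𝕜)) (F : Finset I) : C(I → Bool, 𝕜) :=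
  ∑ w : F → Bool, f (CKA_ext w) • CKA_cyl 𝕜 w

lemma CKA_approxF_apply (f : C(I → Bool, 𝕜)) (F : Finset I) (x : I → Bool) :
    CKA_approxF f F x = f (CKA_proj F x) :=
  CKA_sum_cyl_apply (fun w => f (CKA_ext w)) x

lemma CKA_tendsto_approxF (f : C(I → Bool, 𝕜)) : Tendsto (CKA_approxF f) atTop (𝓝 f) := by
  rw [ContinuousMap.tendsto_iff_tendstoUniformly]
  have h1 : UniformContinuous f := CompactSpace.uniformContinuous_of_continuous f.continuous
  have h2 := h1.comp_tendstoUniformly CKA_tendstoUniformly_proj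
  have h3 : (fun F => ⇑(CKA_approxF f F)) = fun F => f ∘ CKA_proj F := by
    funext F x
    exact CKA_approxF_apply f F x
  rw [h3]
  exact h2

/-- absolute value. -/
noncomputable def CKA_absC (f : C(I → Bool, 𝕜)) : C(I → Bool, ℝ) :=
  ⟨fun x => ‖f x‖, f.continuous.norm⟩

/-- The positive functional dominating `Φ`, vanishing on the clopen sets killed by `Φ`. -/
theorem CKA_exists_dominating (Φ : C(I → Bool, 𝕜) →L[𝕜] 𝕜) :
    ∃ L : C(I → Bool, ℝ) →L[ℝ] ℝ, (∀ f : C(I → Bool, ℝ), (∀ x, 0 ≤ f x) → 0 ≤ L f) ∧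
      (∀ f : C(I → Bool, 𝕜), ‖Φ f‖ ≤ L (CKA_absC f)) ∧
      ∀ f : C(I → Bool, ℝ), (∀ᶠ F in (atTop : Filter (Finset I)), CKA_lam Φ F f = 0) →
        L f = 0 := by
  obtain ⟨L, hL⟩ := CKA_ultralimit (𝕜 := ℝ) (Ultrafilter.of (atTop : Filter (Finset I)))
    (CKA_lam Φ) (CKA_norm_lam_le Φ)
  have hle : (Ultrafilter.of (atTop : Filter (Finset I)) : Filter (Finset I)) ≤ atTop :=
    Ultrafilter.of_le _
  refine ⟨L, fun f hf => ?_, fun f => ?_, fun f hf => ?_⟩
  · refine ge_of_tendsto' (hL f) (fun n => ?_)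
    rw [CKA_lam_apply]
    exact Finset.sum_nonneg (fun w _ => mul_nonneg (norm_nonneg _) (hf _))
  · have h1 : Tendsto (fun F => ‖Φ (CKA_approxF f F)‖)
        (Ultrafilter.of (atTop : Filter (Finset I))) (𝓝 ‖Φ f‖) :=
      (((Φ.continuous.tendsto f).comp (CKA_tendsto_approxF f)).norm).mono_left hle
    refine le_of_tendsto_of_tendsto' h1 (hL (CKA_absC f)) (fun n => ?_)
    rw [CKA_lam_apply, CKA_approxF, map_sum]
    refine (norm_sum_le _ _).trans (Finset.sum_le_sum (fun w _ => ?_))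
    rw [map_smul, norm_smul, mul_comm]
    rfl
  · refine tendsto_nhds_unique (hL f) ?_
    refine (tendsto_congr' ?_).mpr tendsto_const_nhds
    exact hle hf

/-! ### measurability -/

lemma CKA_measurable_cyl {F : Finset I} (w : F → Bool) :
    MeasurableSet {x : I → Bool | (fun i : F => x i) = w} := by
  have h : Measurable (fun (x : I → Bool) (i : F) => x i) :=
    measurable_pi_lambda _ (fun i => measurable_pi_apply (i : I))
  exact h (measurableSet_singleton w)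

lemma CKA_stronglyMeasurable_approxF (f : C(I → Bool, 𝕜)) (F : Finset I) :
    StronglyMeasurable (CKA_approxF f F) := by
  have h1 : (⇑(CKA_approxF f F) : (I → Bool) → 𝕜) =
      fun x => ∑ w : F → Bool, f (CKA_ext w) * ({x : I → Bool | (fun i : F => x i) = w}).indicator
        (fun _ => (1 : 𝕜)) x := by
    funext x
    rw [CKA_approxF, ContinuousMap.sum_apply]
    refine Finset.sum_congr rfl (fun w _ => ?_)
    rw [ContinuousMap.smul_apply, smul_eq_mul, CKA_cyl_apply, Set.indicator_apply]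
    by_cases hw : (fun i : F => x i) = w
    · rw [if_pos hw, if_pos (by exact hw)]
    · rw [if_neg hw, if_neg (by exact hw)]
  rw [h1]
  refine Finset.stronglyMeasurable_fun_sum _ (fun w _ => ?_)
  exact ((stronglyMeasurable_const).indicator (CKA_measurable_cyl w)).const_mul _

/-- continuous functions are measurable for the product `σ`-algebra -/
theorem CKA_stronglyMeasurable (f : C(I → Bool, 𝕜)) : StronglyMeasurable (f : (I → Bool) → 𝕜) := by
  have hex : ∀ n : ℕ, ∃ F : Finset I, ‖CKA_approxF f F - f‖ < 1 / ((n : ℝ) + 1) := by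
    intro n
    have h := (Metric.tendsto_nhds.1 (CKA_tendsto_approxF f)) (1 / ((n : ℝ) + 1))
      Nat.one_div_pos_of_nat
    obtain ⟨F, hF⟩ := h.exists
    exact ⟨F, by rwa [dist_eq_norm] at hF⟩
  choose F hF using hex
  refine stronglyMeasurable_of_tendsto atTop
    (fun n => CKA_stronglyMeasurable_approxF f (F n)) ?_
  rw [tendsto_pi_nhds]
  intro x
  rw [tendsto_iff_norm_sub_tendsto_zero]
  refine squeeze_zero (fun n => norm_nonneg _) (fun n => ?_)
    (tendsto_one_div_add_atTop_nhds_zero_nat (𝕜 := ℝ))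
  have h := (CKA_approxF f (F n) - f).norm_coe_le_norm x
  exact h.trans (hF n).le

/-! ### Riesz -/

/-- `{0,1}^I` with the Borel `σ`-algebra -/
def CKA_B (I : Type u) : Type u := I → Bool

instance : TopologicalSpace (CKA_B I) := inferInstanceAs (TopologicalSpace (I → Bool))
instance : CompactSpace (CKA_B I) := inferInstanceAs (CompactSpace (I → Bool))
instance : T2Space (CKA_B I) := inferInstanceAs (T2Space (I → Bool))
instance : MeasurableSpace (CKA_B I) := borel _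
instance : BorelSpace (CKA_B I) := ⟨rfl⟩

/-- the identity -/
def CKA_id (x : CKA_B I) : I → Bool := x

lemma CKA_measurable_id : Measurable (CKA_id : CKA_B I → (I → Bool)) := by
  refine measurable_pi_lambda _ (fun i => ?_)
  have h : Continuous (fun x : CKA_B I => CKA_id x i) := continuous_apply i
  exact h.measurable

/-- Riesz: positive functionals on `C({0,1}^I, ℝ)` are integrals. -/
theorem CKA_exists_measure (L : C(I → Bool, ℝ) →L[ℝ] ℝ)
    (hL : ∀ f : C(I → Bool, ℝ), (∀ x, 0 ≤ f x) → 0 ≤ L f) :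
    ∃ ν : Measure (I → Bool), IsFiniteMeasure ν ∧ ∀ f : C(I → Bool, ℝ), ∫ x, f x ∂ν = L f := by
  let L' : CompactlySupportedContinuousMap (CKA_B I) ℝ →ₗ[ℝ] ℝ :=
    { toFun := fun f => L (⟨fun x => f x, f.continuous⟩ : C(I → Bool, ℝ))
      map_add' := fun _ _ => by
        rw [← map_add]; rfl
      map_smul' := fun _ _ => by
        rw [RingHom.id_apply, ← map_smul]; rfl }
  let Lp := PositiveLinearMap.mk₀ L' (fun f hf => hL _ (fun x =>
    CompactlySupportedContinuousMap.le_def.1 hf x))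
  set ρ : Measure (CKA_B I) := RealRMK.rieszMeasure Lp with hρ
  have hfin : IsFiniteMeasure ρ := inferInstance
  refine ⟨ρ.map CKA_id, inferInstance, fun f => ?_⟩
  rw [integral_map CKA_measurable_id.aemeasurable (CKA_stronglyMeasurable f).aestronglyMeasurable]
  have h := RealRMK.integral_rieszMeasure Lp
    ⟨(⟨fun x => f (CKA_id x), f.continuous⟩ : C(CKA_B I, ℝ)), HasCompactSupport.of_compactSpace _⟩
  exact h

/-! ### density -/

lemma CKA_memLp (ν : Measure (I → Bool)) [IsFiniteMeasure ν] (f : C(I → Bool, 𝕜)) (p : ℝ≥0∞) :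
    MemLp (f : (I → Bool) → 𝕜) p ν :=
  MemLp.of_bound (CKA_stronglyMeasurable f).aestronglyMeasurable ‖f‖
    (Eventually.of_forall (fun x => f.norm_coe_le_norm x))

/-- the canonical map to `L²` -/
noncomputable def CKA_e (𝕜 : Type v) [RCLike 𝕜] (ν : Measure (I → Bool)) [IsFiniteMeasure ν] :
    C(I → Bool, 𝕜) →ₗ[𝕜] Lp 𝕜 2 ν where
  toFun f := (CKA_memLp ν f 2).toLp f
  map_add' f g := rfl
  map_smul' c f := rfl

theorem CKA_exists_density (Φ : C(I → Bool, 𝕜) →L[𝕜] 𝕜) (ν : Measure (I → Bool))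
    [IsFiniteMeasure ν] (hΦ : ∀ f : C(I → Bool, 𝕜), ‖Φ f‖ ≤ ∫ x, ‖f x‖ ∂ν) :
    ∃ h : (I → Bool) → 𝕜, Integrable h ν ∧
      ∀ f : C(I → Bool, 𝕜), Φ f = ∫ x, h x * f x ∂ν := by
  set e := CKA_e 𝕜 ν with he
  set M := (LinearMap.range e).topologicalClosure with hM
  have hMc : IsClosed (M : Set (Lp 𝕜 2 ν)) := Submodule.isClosed_topologicalClosure _
  have hMcs : CompleteSpace M := hMc.completeSpace_coe
  have hmem : ∀ f, e f ∈ M := fun f => Submodule.le_topologicalClosure _ (LinearMap.mem_range_self e f)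
  set e' : C(I → Bool, 𝕜) →ₗ[𝕜] M := e.codRestrict M hmem with he'
  have hde : DenseRange e' := by
    intro x
    rw [Topology.IsInducing.subtypeVal.closure_eq_preimage_closure_image, Set.mem_preimage]
    have h1 : Subtype.val '' (Set.range e') = (LinearMap.range e : Set (Lp 𝕜 2 ν)) := by
      ext y
      constructor
      · rintro ⟨_, ⟨f, rfl⟩, rfl⟩
        exact LinearMap.mem_range_self e f
      · rintro ⟨f, rfl⟩
        exact ⟨e' f, ⟨f, rfl⟩, rfl⟩
    have h2 : ∀ y : Lp 𝕜 2 ν, y ∈ M → y ∈ closure (Subtype.val '' Set.range e') := by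
      intro y hy
      rw [h1]
      rw [hM, ← SetLike.mem_coe, Submodule.topologicalClosure_coe] at hy
      exact hy
    exact h2 x.1 x.2
  have hbound : ∃ C : ℝ, ∀ f : C(I → Bool, 𝕜), ‖Φ f‖ ≤ C * ‖e' f‖ := by
    refine ⟨((ν Set.univ) ^ (1 / (1 : ℝ≥0∞).toReal - 1 / (2 : ℝ≥0∞).toReal)).toReal, fun f => ?_⟩
    have hfm : AEStronglyMeasurable (f : (I → Bool) → 𝕜) ν :=
      (CKA_stronglyMeasurable f).aestronglyMeasurable
    have h1 : ‖Φ f‖ ≤ ∫ x, ‖f x‖ ∂ν := hΦ f
    have h2 : ∫ x, ‖f x‖ ∂ν = (eLpNorm f 1 ν).toReal := by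
      rw [eLpNorm_one_eq_lintegral_enorm, integral_norm_eq_lintegral_enorm hfm]
    have h3 : ‖e' f‖ = (eLpNorm f 2 ν).toReal := by
      have h30 : ‖e' f‖ = ‖e f‖ := rfl
      rw [h30]
      exact Lp.norm_toLp _ (CKA_memLp ν f 2)
    have h4 := eLpNorm_le_eLpNorm_mul_rpow_measure_univ (μ := ν) (p := 1) (q := 2)
      (by norm_num) hfm
    have h5 : eLpNorm f 2 ν ≠ ∞ := (CKA_memLp ν f 2).eLpNorm_ne_top
    have h6 : (ν Set.univ) ^ (1 / (1 : ℝ≥0∞).toReal - 1 / (2 : ℝ≥0∞).toReal) ≠ ∞ :=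
      ENNReal.rpow_ne_top_of_nonneg (by norm_num) (measure_ne_top _ _)
    calc ‖Φ f‖ ≤ (eLpNorm f 1 ν).toReal := by rw [← h2]; exact h1
      _ ≤ (eLpNorm f 2 ν * (ν Set.univ) ^ (1 / (1 : ℝ≥0∞).toReal - 1 / (2 : ℝ≥0∞).toReal)).toReal :=
          ENNReal.toReal_mono (ENNReal.mul_ne_top h5 h6) h4
      _ = _ := by rw [ENNReal.toReal_mul, h3, mul_comm]
  set Ψ' : M →L[𝕜] 𝕜 := (Φ : C(I → Bool, 𝕜) →ₗ[𝕜] 𝕜).extendOfNorm e' with hΨ'
  have hΨe : ∀ f, Ψ' (e' f) = Φ f := fun f => LinearMap.extendOfNorm_eq hde hbound f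
  set h := (InnerProductSpace.toDual 𝕜 M).symm Ψ' with hh
  have hinner : ∀ f, Φ f = inner 𝕜 (h : Lp 𝕜 2 ν) (e f) := by
    intro f
    have h1 : Ψ' (e' f) = inner 𝕜 h (e' f) := by
      rw [hh, InnerProductSpace.toDual_symm_apply]
    rw [← hΨe, h1]
    rfl
  have hint : Integrable ((h : Lp 𝕜 2 ν) : (I → Bool) → 𝕜) ν :=
    (Lp.memLp (h : Lp 𝕜 2 ν)).integrable (by norm_num)
  refine ⟨fun x => (starRingEnd 𝕜) ((h : Lp 𝕜 2 ν) x), ?_, fun f => ?_⟩
  · exact (RCLike.conjCLE (K := 𝕜)).toContinuousLinearMap.integrable_comp hint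
  · rw [hinner, L2.inner_def]
    refine integral_congr_ae ?_
    filter_upwards [(CKA_memLp ν f 2).coeFn_toLp] with x hx
    have hx' : (e f : (I → Bool) → 𝕜) x = f x := hx
    rw [hx', RCLike.inner_apply, mul_comm]

end CKA

theorem st_CKA : ST_CKA.{u, v} := by
  intro 𝕜 _ I K _ Φ
  -- the functional on the whole cube
  set R : C(I → Bool, 𝕜) →L[𝕜] C(K, 𝕜) :=
    LinearMap.mkContinuous
      { toFun := fun F => F.restrict K
        map_add' := fun _ _ => rfl
        map_smul' := fun _ _ => rfl } 1 (fun F => by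
        rw [one_mul]
        refine (ContinuousMap.norm_le _ (norm_nonneg _)).2 (fun x => ?_)
        exact F.norm_coe_le_norm _) with hR
  have hRF : ∀ F, R F = F.restrict K := fun F => rfl
  set Ψ : C(I → Bool, 𝕜) →L[𝕜] 𝕜 := Φ.comp R with hΨ
  obtain ⟨L, hL, hΦL, hL0⟩ := CKA_exists_dominating Ψ
  obtain ⟨ν, hν, hνL⟩ := CKA_exists_measure L hL
  obtain ⟨h, hh, hh'⟩ := CKA_exists_density Ψ ν (fun f => by
    refine (hΦL f).trans (le_of_eq ?_)
    rw [← hνL]
    rfl)
  refine ⟨ν, hν, ?_, h, hh, fun F => hh' F⟩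
  -- carried by `K`
  intro C hC hCK
  set g : C(I → Bool, ℝ) := ⟨C.indicator (fun _ => 1),
    hC.continuous_indicator continuous_const⟩ with hg
  have hg1 : ∀ x ∈ C, g x = 1 := fun x hx => by
    show C.indicator (fun _ => (1 : ℝ)) x = 1
    rw [Set.indicator_of_mem hx]
  have hg0 : ∀ x ∉ C, g x = 0 := fun x hx => by
    show C.indicator (fun _ => (1 : ℝ)) x = 0
    rw [Set.indicator_of_notMem hx]
  have hLg : L g = 0 := by
    apply hL0
    have h1 := (Metric.tendsto_nhds.1 (CKA_tendsto_approxF g)) 1 one_pos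
    filter_upwards [h1] with F hF
    rw [CKA_lam_apply]
    refine Finset.sum_eq_zero (fun w _ => ?_)
    by_cases hw : CKA_ext w ∈ C
    · have h2 : R (CKA_cyl 𝕜 w) = 0 := by
        rw [hRF]
        ext x
        have h3 : (CKA_cyl 𝕜 w).restrict K x = CKA_cyl 𝕜 w x.1 := rfl
        rw [h3, CKA_cyl_apply, ContinuousMap.zero_apply]
        refine if_neg (fun h4 => ?_)
        have h5 : CKA_proj F x.1 = CKA_ext w := by
          unfold CKA_proj
          rw [h4]
        have h6 : CKA_approxF g F x.1 = 1 := by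
          rw [CKA_approxF_apply, h5]
          exact hg1 _ hw
        have h7 : x.1 ∉ C := fun h => Set.disjoint_left.1 hCK h x.2
        have h8 := ContinuousMap.dist_apply_le_dist (f := CKA_approxF g F) (g := g) x.1
        rw [h6, hg0 _ h7, Real.dist_eq, sub_zero, abs_one] at h8
        linarith
      have h3 : Ψ (CKA_cyl 𝕜 w) = 0 := by
        show Φ (R (CKA_cyl 𝕜 w)) = 0
        rw [h2, map_zero]
      rw [h3, norm_zero, zero_mul]
    · rw [hg0 _ hw, mul_zero]
  have hint : ∫ x, g x ∂ν = 0 := by rw [hνL, hLg]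
  have hgi : Integrable (g : (I → Bool) → ℝ) ν := memLp_one_iff_integrable.1 (CKA_memLp ν g 1)
  have hgn : 0 ≤ᵐ[ν] (g : (I → Bool) → ℝ) := by
    refine Eventually.of_forall (fun x => ?_)
    by_cases hx : x ∈ C
    · show (0 : ℝ) ≤ g x
      rw [hg1 x hx]; exact zero_le_one
    · show (0 : ℝ) ≤ g x
      rw [hg0 x hx]
  have h0 := (integral_eq_zero_iff_of_nonneg_ae hgn hgi).1 hint
  refine measure_mono_null ?_ (ae_iff.1 h0)
  intro x hx
  show ¬ (g x = 0)
  rw [hg1 x hx]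
  exact one_ne_zero

end DualL1
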