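import Pool.Agent.Helper60.L1Full.Stmts

/-! SUM1-SUM4 : isometric `ℓ¹`-sums. -/

namespace DualL1

open Filter Topology
open scoped ENNReal Classical

universe u u' v w w' x

theorem st_SUM4 : ST_SUM4.{u, v, w} := by
  intro 𝕜 _ J E _ _
  refine ⟨fun j => ⟨lp.lsingle 1 j, fun v => lp.norm_single (by simp) j v⟩, ?_, ?_⟩
  · intro S x
    have h := lp.norm_sum_single (p := 1) (by simp) x S
    simp only [ENNReal.toReal_one, Real.rpow_one] at h
    exact h
  · intro M hM h
    rw [eq_top_iff]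
    intro f _
    exact hM.mem_of_tendsto (lp.hasSum_single (by simp) f)
      (Eventually.of_forall (fun S => M.sum_mem (fun j _ => h j _)))

theorem st_SUM3 : ST_SUM3.{u, u', v, w, x} := by
  intro 𝕜 _ J J' e E _ _ X _ _ hX
  obtain ⟨i, hi1, hi2⟩ := hX
  refine ⟨fun j' => i (e j'), ?_, ?_⟩
  · intro S y
    set z : ∀ j, E j := Equiv.piCongrLeft E e y with hz
    have hzy : ∀ j', z (e j') = y j' := fun j' => Equiv.piCongrLeft_apply_apply E e y j'
    have h := hi1 (S.map e.toEmbedding) z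
    rw [Finset.sum_map, Finset.sum_map] at h
    simp only [Equiv.coe_toEmbedding, hzy] at h
    exact h
  · intro M hM h
    refine hi2 M hM (fun j y => ?_)
    obtain ⟨j', rfl⟩ := e.surjective j
    exact h j' y

theorem st_SUM2 : ST_SUM2.{u, u', v, w, w', x} := by
  intro 𝕜 _ J E _ _ X _ _ Q F _ _ hX hE
  obtain ⟨i, hi1, hi2⟩ := hX
  choose k hk1 hk2 using hE
  refine ⟨fun p => (i p.1).comp (k p.1 p.2), ?_, ?_⟩
  · intro S y
    have hS := Finset.sigma_image_fst_preimage_mk S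
    have h1 : ∑ p ∈ S, ((i p.1).comp (k p.1 p.2)) (y p) =
        ∑ j ∈ S.image Sigma.fst, i j (∑ q ∈ S.preimage (Sigma.mk j) sigma_mk_injective.injOn,
          k j q (y ⟨j, q⟩)) := by
      conv_lhs => rw [← hS]
      rw [Finset.sum_sigma]
      refine Finset.sum_congr rfl (fun j _ => ?_)
      rw [map_sum]
      rfl
    have h2 : ∑ p ∈ S, ‖y p‖ = ∑ j ∈ S.image Sigma.fst,
        ∑ q ∈ S.preimage (Sigma.mk j) sigma_mk_injective.injOn, ‖y ⟨j, q⟩‖ := by
      conv_lhs => rw [← hS]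
      rw [Finset.sum_sigma]
    rw [h1, h2, hi1 _ (fun j => ∑ q ∈ S.preimage (Sigma.mk j) sigma_mk_injective.injOn,
          k j q (y ⟨j, q⟩))]
    refine Finset.sum_congr rfl (fun j _ => ?_)
    exact hk1 j _ (fun q => y ⟨j, q⟩)
  · intro M hM h
    refine hi2 M hM (fun j z => ?_)
    have h3 : M.comap (i j).toLinearMap = ⊤ := by
      refine hk2 j _ (hM.preimage (i j).continuous) (fun q y => ?_)
      exact h ⟨j, q⟩ y
    have h4 : z ∈ M.comap (i j).toLinearMap := by rw [h3]; trivial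
    exact h4

section SUM1

variable {𝕜 : Type v} [RCLike 𝕜] {J : Type u} {E : J → Type w}
  [∀ j, NormedAddCommGroup (E j)] [∀ j, NormedSpace 𝕜 (E j)]
  {X : Type x} [NormedAddCommGroup X] [NormedSpace 𝕜 X] [CompleteSpace X]

theorem SUM1_hasSum_norm (f : lp E 1) : HasSum (fun j => ‖f j‖) ‖f‖ := by
  have h := lp.hasSum_norm (p := 1) (by simp) f
  simpa only [ENNReal.toReal_one, Real.rpow_one] using h

theorem SUM1_summable (i : ∀ j, E j →ₗᵢ[𝕜] X) (f : lp E 1) : Summable (fun j => i j (f j)) :=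
  Summable.of_norm_bounded (SUM1_hasSum_norm f).summable (fun j => ((i j).norm_map _).le)

/-- the map `f ↦ ∑ i j (f j)` -/
noncomputable def SUM1_T (i : ∀ j, E j →ₗᵢ[𝕜] X)
    (hi : ∀ (S : Finset J) (x : ∀ j, E j), ‖∑ j ∈ S, i j (x j)‖ = ∑ j ∈ S, ‖x j‖) :
    lp E 1 →ₗᵢ[𝕜] X where
  toFun f := ∑' j, i j (f j)
  map_add' f g := by
    rw [← (SUM1_summable i f).tsum_add (SUM1_summable i g)]
    refine tsum_congr (fun j => ?_)
    rw [← map_add]
    rfl
  map_smul' c f := by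
    rw [RingHom.id_apply, ← (SUM1_summable i f).tsum_const_smul c]
    refine tsum_congr (fun j => ?_)
    rw [← map_smul]
    rfl
  norm_map' f := by
    show ‖∑' j, i j (f j)‖ = ‖f‖
    have h1 : Tendsto (fun S : Finset J => ‖∑ j ∈ S, i j (f j)‖) atTop
        (𝓝 ‖∑' j, i j (f j)‖) := (SUM1_summable i f).hasSum.norm
    have h2 : Tendsto (fun S : Finset J => ‖∑ j ∈ S, i j (f j)‖) atTop (𝓝 ‖f‖) := by
      simp only [hi]
      exact SUM1_hasSum_norm f
    exact tendsto_nhds_unique h1 h2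

theorem SUM1_T_apply (i : ∀ j, E j →ₗᵢ[𝕜] X)
    (hi : ∀ (S : Finset J) (x : ∀ j, E j), ‖∑ j ∈ S, i j (x j)‖ = ∑ j ∈ S, ‖x j‖) (f : lp E 1) :
    SUM1_T i hi f = ∑' j, i j (f j) := rfl

end SUM1

theorem st_SUM1 : ST_SUM1.{u, v, w, x} := by
  intro 𝕜 _ J E _ _ _ X _ _ _ hX
  obtain ⟨i, hi1, hi2⟩ := hX
  set T := SUM1_T i hi1 with hT
  have hcl : IsClosed (LinearMap.range T.toLinearMap : Set X) :=
    T.isometry.isClosedEmbedding.isClosed_range
  have htop := hi2 _ hcl (fun j y => by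
    refine ⟨lp.single 1 j y, ?_⟩
    show SUM1_T i hi1 (lp.single 1 j y) = i j y
    rw [SUM1_T_apply, tsum_eq_single j]
    · rw [lp.single_apply_self]
    · intro k hk
      rw [lp.single_apply_ne _ _ _ hk, map_zero])
  have hsurj : Function.Surjective T := fun y => by
    have : y ∈ LinearMap.range T.toLinearMap := by rw [htop]; trivial
    exact this
  exact ⟨(LinearIsometryEquiv.ofSurjective T hsurj).symm.toContinuousLinearEquiv⟩

end DualL1
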